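import Pool.Agent.V1137.Pm2

/-!
For most `k`, both `m ^ 3 + k` and `(-m) ^ 3 + k` take many prime values at `m = d p`, `d = 1` or
`d = 2`, with `p` in any given set of primes which meets all short clusters of primes.
-/

set_option autoImplicit false

open Finset Filter Topology

namespace Pool.Agent.Results.MP_4d57ea_nt.CubesOfUnavoidablePrimes

/-- `P` meets all short clusters of primes: there are `M` and `ε > 0` such that, for all large `u`,
every interval `[u, v]` with `v ≤ u + ε log u` which contains at least `M` primes contains a prime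
which belongs to `P`. -/
def MeetsClusters (P : Set ℕ) : Prop := ∃ (M : ℕ) (ε : ℝ), 0 < ε ∧ ∃ u₀ : ℕ, ∀ u v : ℕ, u₀ ≤ u →
  (v : ℝ) ≤ u + ε * Real.log u → M ≤ ((Icc u v).filter Nat.Prime).card →
  ∃ p ∈ P, u ≤ p ∧ p ≤ v ∧ p.Prime

open Classical in
/-- The primes `p ≤ x` in `P` for which `(s d p) ^ 3 + k` is a (positive) prime. -/
noncomputable def arguments (P : Set ℕ) (s : ℤ) (d k x : ℕ) : Finset ℕ :=
  (Icc 1 x).filter (fun p => p.Prime ∧ p ∈ P ∧ ((s * d * p) ^ 3 + (k : ℤ)).toNat.Prime)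

open Classical in
/-- The `1 ≤ k ≤ K x ^ 3` such that for each `d ∈ {1, 2}` one of the signs `s = 1`, `s = -1` has
fewer than `c x / (log x) ^ 2` arguments. -/
noncomputable def exceptions (P : Set ℕ) (c : ℝ) (K x : ℕ) : Finset ℕ :=
  (Icc 1 (K * x ^ 3)).filter (fun k => ∀ d ∈ ({1, 2} : Finset ℕ), ∃ s ∈ ({1, -1} : Finset ℤ),
    ((arguments P s d k x).card : ℝ) < c * (x / Real.log x ^ 2))

open Polynomial in
/-- the polynomial `(d X) ^ 3` -/
noncomputable def gd (d : ℕ) : ℤ[X] := C ((d : ℤ) ^ 3) * X ^ 3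

lemma gd_eval (d : ℕ) (n : ℤ) : (gd d).eval n = ((d : ℤ) * n) ^ 3 := by
  unfold gd
  simp only [Polynomial.eval_mul, Polynomial.eval_C, Polynomial.eval_pow, Polynomial.eval_X]
  ring

lemma gd_deg (d : ℕ) (hd : 0 < d) : (gd d).natDegree = 3 := by
  unfold gd
  apply Polynomial.natDegree_C_mul_X_pow
  have : (d : ℤ) ≠ 0 := by exact_mod_cast hd.ne'
  positivity

lemma gd_lead (d : ℕ) (hd : 0 < d) : 0 < (gd d).leadingCoeff := by
  unfold gd
  rw [Polynomial.leadingCoeff_C_mul_X_pow]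
  have : (0 : ℤ) < d := by exact_mod_cast hd
  positivity

open Pool.Agent.V1137.Unav in
lemma loc (s : ℤ) (hs : s = 1 ∨ s = -1) (d k : ℕ) (hd : d = 1 ∧ k % 2 = 0 ∨ d = 2 ∧ k % 2 = 1) :
    Loc1 s (gd d) k := by
  intro l hl
  by_cases hl2 : l = 2
  · subst hl2
    refine ⟨1, by norm_num, ?_⟩
    rw [gd_eval]
    rcases hd with ⟨rfl, hk⟩ | ⟨rfl, hk⟩ <;> rcases hs with rfl | rfl <;> norm_num <;> omega
  have hl3 : 3 ≤ l := by
    have := hl.two_le
    omega
  have h1 : ¬ (l : ℤ) ∣ 1 := by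
    intro h
    have := Int.le_of_dvd (by norm_num) h
    omega
  by_cases h : (l : ℤ) ∣ (k : ℤ) + s * (gd d).eval 1
  · refine ⟨-1, fun h2 => h1 ((dvd_neg).1 h2), fun h2 => ?_⟩
    have h3 := h.sub h2
    rw [gd_eval, gd_eval] at h3
    have h4 : (k : ℤ) + s * ((d : ℤ) * 1) ^ 3 - (k + s * ((d : ℤ) * -1) ^ 3) =
        s * (2 * (d : ℤ) ^ 3) := by ring
    rw [h4] at h3
    have h5 : (l : ℤ) ∣ 2 * (d : ℤ) ^ 3 := by
      rcases hs with rfl | rfl
      · rwa [one_mul] at h3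
      · rw [neg_one_mul] at h3
        exact dvd_neg.1 h3
    have h6 : (l : ℤ) ∣ ((2 ^ 4 : ℕ) : ℤ) := by
      rcases hd with ⟨rfl, hk⟩ | ⟨rfl, hk⟩
      · refine h5.trans ?_
        norm_num
      · refine h5.trans ?_
        norm_num
    have h7 : l ∣ 2 ^ 4 := by exact_mod_cast h6
    have h8 := (Nat.prime_dvd_prime_iff_eq hl Nat.prime_two).1 (hl.dvd_of_dvd_pow h7)
    exact hl2 h8
  · exact ⟨1, h1, h⟩

open Pool.Agent.V1137.Unav in
/-- **Primes `m ^ 3 + k`, `m = ± d p`, with `p` from a set which meets all short clusters of primes.**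
Let `P` be a set which, for some `M` and `ε > 0`, contains a prime from every interval `[u, v]`,
`v ≤ u + ε log u`, `u` large, with at least `M` primes. For all `K` and `κ > 0` there is `c > 0` such
that for all large `x` and all integers `1 ≤ k ≤ K x ^ 3`, with at most `κ x ^ 3` exceptions, there is
`d ∈ {1, 2}` such that `(d p) ^ 3 + k` is prime for at least `c x / (log x) ^ 2` primes `p ≤ x` in `P`,
and `(-d p) ^ 3 + k` is a positive prime for at least `c x / (log x) ^ 2` primes `p ≤ x` in `P`. -/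
theorem result (P : Set ℕ) (hP : MeetsClusters P) (K : ℕ) (κ : ℝ) (hκ : 0 < κ) :
    ∃ c : ℝ, 0 < c ∧ ∀ᶠ x : ℕ in atTop, ((exceptions P c K x).card : ℝ) ≤ κ * (x : ℝ) ^ 3 := by
  classical
  obtain ⟨M, ε, hε, hP⟩ := hP
  have hmost := PS_most M ε hε P hP
  set Bad : ℤ × ℕ → ℝ → ℕ → Finset ℕ := fun i c x => (Icc 1 (K * x ^ 3)).filter
        (fun k => Loc1 i.1 (gd i.2) k ∧ ((Arg1 P i.1 (gd i.2) x k).card : ℝ) <
          c * (x / Real.log x ^ 2)) with hBad
  set S : Finset (ℤ × ℕ) := ({1, -1} : Finset ℤ) ×ˢ ({1, 2} : Finset ℕ) with hS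
  have hScard : S.card = 4 := by
    rw [hS, card_product]
    decide
  obtain ⟨c, hc, x₀, h⟩ := common S (fun i c x => ((Bad i c x).card : ℝ) ≤ κ / 4 * (x : ℝ) ^ 3) (by
      intro v c c' x hcc h
      refine le_trans ?_ h
      apply Nat.cast_le.2
      apply card_le_card
      intro k hk
      have hk' := mem_filter.1 hk
      refine mem_filter.2 ⟨hk'.1, hk'.2.1, lt_of_lt_of_le hk'.2.2 ?_⟩
      apply mul_le_mul_of_nonneg_right hcc
      positivity) (by
      intro i hi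
      rw [hS, mem_product] at hi
      have h1 : i.1 = 1 ∨ i.1 = -1 := by simpa using hi.1
      have h2 : 0 < i.2 := by
        have := hi.2
        simp only [mem_insert, mem_singleton] at this
        omega
      obtain ⟨c, hc, x₀, h⟩ := one_pm i.1 h1 (gd i.2) (by rw [gd_deg i.2 h2]; norm_num)
        (gd_lead i.2 h2) P hmost K (κ / 4) (by positivity)
      refine ⟨c, hc, x₀, fun x hx => ?_⟩
      have h3 := h x hx
      rw [gd_deg i.2 h2] at h3
      exact h3)
  refine ⟨c, hc, ?_⟩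
  rw [eventually_atTop]
  refine ⟨x₀, fun x hx => ?_⟩
  have hb := h x hx
  have hsub : exceptions P c K x ⊆ S.biUnion (fun i => Bad i c x) := by
    intro k hk
    unfold exceptions at hk
    rw [mem_filter] at hk
    obtain ⟨hk1, hk2⟩ := hk
    obtain ⟨d, hd⟩ : ∃ d : ℕ, d = 1 ∧ k % 2 = 0 ∨ d = 2 ∧ k % 2 = 1 := by
      rcases Nat.mod_two_eq_zero_or_one k with h | h
      · exact ⟨1, Or.inl ⟨rfl, h⟩⟩
      · exact ⟨2, Or.inr ⟨rfl, h⟩⟩
    have hd12 : d ∈ ({1, 2} : Finset ℕ) := by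
      rcases hd with ⟨rfl, _⟩ | ⟨rfl, _⟩ <;> simp
    obtain ⟨s, hs, hlt⟩ := hk2 d hd12
    have hs' : s = 1 ∨ s = -1 := by simpa using hs
    rw [mem_biUnion]
    refine ⟨(s, d), by rw [hS, mem_product]; exact ⟨hs, hd12⟩, ?_⟩
    refine mem_filter.2 ⟨hk1, loc s hs' d k hd, lt_of_le_of_lt ?_ hlt⟩
    apply Nat.cast_le.2
    apply card_le_card
    intro n hn
    unfold Arg1 at hn
    unfold arguments
    rw [mem_filter] at hn ⊢
    refine ⟨hn.1, hn.2.1, hn.2.2.1, ?_⟩
    have h4 := hn.2.2.2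
    rw [gd_eval] at h4
    have e1 : (k : ℤ) + s * ((d : ℤ) * n) ^ 3 = (s * d * n) ^ 3 + (k : ℤ) := by
      rcases hs' with rfl | rfl <;> ring
    rwa [e1] at h4
  have h2 : ((S.biUnion (fun i => Bad i c x)).card : ℝ) ≤ κ * (x : ℝ) ^ 3 := by
    calc ((S.biUnion (fun i => Bad i c x)).card : ℝ) ≤
        ((∑ i ∈ S, (Bad i c x).card : ℕ) : ℝ) := by exact_mod_cast card_biUnion_le
      _ = ∑ i ∈ S, ((Bad i c x).card : ℝ) := by push_cast; rfl
      _ ≤ ∑ _i ∈ S, (κ / 4 * (x : ℝ) ^ 3) := sum_le_sum fun i hi => hb i hi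
      _ = κ * (x : ℝ) ^ 3 := by
          rw [sum_const, hScard, nsmul_eq_mul]
          push_cast
          ring
  exact le_trans (by exact_mod_cast card_le_card hsub) h2

end Pool.Agent.Results.MP_4d57ea_nt.CubesOfUnavoidablePrimes
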