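import Pool.Agent.V11249.NP.Fix

/-!
# Arithmetic progressions of integers `m` with `m ^ 3 + k` prime, uniformly in `k`

For all integers `k`, whatever their size, consider the integers `m` for which `|m ^ 3 + k|` is prime. The number of these `m` in a window `(A, A + N]` has the
expected order of magnitude `N V` if and only if the number of their `l`-term arithmetic progressions with
differences up to `D` has the expected order of magnitude `N D V ^ l`, for all `D` between a power of `log N` and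
`N`; the constants depend only on `l`. The same holds for all sets of `m` at which the values have no
prime factor `≤ N ^ κ` (Szemerédi's theorem relative to these sets, and its converse).
-/

set_option autoImplicit false

open Finset Polynomial Pool.Agent.V11249.NP

namespace Pool.Agent.Results.MP_4d57ea_nt.ProgressionsOfArguments

/-- the number of the residues `m` modulo `p` with `p ∣ m ^ 3 + k` -/
def omega (k : ℤ) (p : ℕ) : ℕ := ((range p).filter (fun m : ℕ => (p : ℤ) ∣ (m : ℤ) ^ 3 + k)).card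

/-- the sieve product over the primes `p ≤ N ^ κ` -/
noncomputable def V (k : ℤ) (κ : ℝ) (N : ℕ) : ℝ :=
  ∏ p ∈ (Icc 1 ⌊(N : ℝ) ^ κ⌋₊).filter Nat.Prime, (1 - (omega k p : ℝ) / p)

/-- the integers `m` in `(A, A + N]` for which `|m ^ 3 + k|` is prime -/
def P (k : ℤ) (A N : ℕ) : Finset ℕ := (Ioc A (A + N)).filter (fun m : ℕ => ((m : ℤ) ^ 3 + k).natAbs.Prime)

/-- all prime factors of `m ^ 3 + k` are larger than `N ^ κ` -/
def Rough (k : ℤ) (κ : ℝ) (N m : ℕ) : Prop :=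
  ∀ p : ℕ, p.Prime → (p : ℤ) ∣ (m : ℤ) ^ 3 + k → (N : ℝ) ^ κ < p

open Classical in
/-- The number of the progressions `n, n + d, …, n + (l - 1) d` in `S` with `1 ≤ d ≤ D`. -/
noncomputable def AP (l D : ℕ) (S : Finset ℕ) : ℕ :=
  ((S ×ˢ Icc 1 D).filter (fun q => ∀ j < l, q.1 + j * q.2 ∈ S)).card


/-- the system -/
noncomputable def F (k : ℤ) : Fin 1 → ℤ[X] := fun _ => X ^ 3 + C k

theorem ev (k : ℤ) (i : Fin 1) (n : ℤ) : (F k i).eval n = n ^ 3 + k := by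
  simp [F]

theorem deg (k : ℤ) (i : Fin 1) : (F k i).natDegree = 3 := by
  show (X ^ 3 + C k : ℤ[X]).natDegree = 3
  exact natDegree_X_pow_add_C

theorem adm (k : ℤ) : ∀ p : ℕ, p.Prime → ∃ m : ℕ, ∀ i, ¬ (p : ℤ) ∣ (F k i).eval (m : ℤ) := by
  intro p hp
  by_cases h : (p : ℤ) ∣ k
  · refine ⟨1, fun i hi => ?_⟩
    rw [ev] at hi
    have h1 := dvd_sub hi h
    have e : ((1 : ℕ) : ℤ) ^ 3 + k - k = ((1 : ℕ) : ℤ) := by
      push_cast
      ring
    rw [e, Int.natCast_dvd_natCast] at h1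
    exact hp.one_lt.ne' (Nat.dvd_one.1 h1)
  · refine ⟨0, fun i hi => h ?_⟩
    rw [ev] at hi
    simpa using hi

theorem us (k : ℤ) : UniG.US 3 (F k) :=
  ⟨fun i => by rw [deg]; omega, adm k⟩

theorem irr (k : ℤ) (h : ¬ ∃ a : ℤ, k = a ^ 3) : Irreducible (X ^ 3 + C k : ℤ[X]) := by
  have hm : (X ^ 3 + C k : ℤ[X]).Monic := monic_X_pow_add_C k (by norm_num)
  rw [hm.irreducible_iff_irreducible_map_fraction_map (K := ℚ)]
  have e : (X ^ 3 + C k : ℤ[X]).map (algebraMap ℤ ℚ) = X ^ 3 - C (-(k : ℚ)) := by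
    simp
  rw [e]
  refine X_pow_sub_C_irreducible_of_prime Nat.prime_three (fun b hb => ?_)
  have hint : IsIntegral ℤ b := by
    refine ⟨X ^ 3 + C k, hm, ?_⟩
    simp only [eval₂_add, eval₂_X_pow, eval₂_C, hb]
    simp
  obtain ⟨c, hc⟩ := IsIntegrallyClosed.isIntegral_iff.1 hint
  apply h
  refine ⟨-c, ?_⟩
  rw [← hc] at hb
  have h2 : ((c ^ 3 : ℤ) : ℚ) = ((-k : ℤ) : ℚ) := by
    push_cast
    simpa using hb
  have h3 : c ^ 3 = -k := by exact_mod_cast h2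
  have h4 : (-c) ^ 3 = -(c ^ 3) := by ring
  rw [h4, h3]
  ring

theorem sys {k : ℤ} (h : ¬ ∃ a : ℤ, k = a ^ 3) : Pool.Agent.W123.RU.Poly.Sys (F k) where
  irr := fun _ => irr k h
  deg := fun i => by rw [deg]; norm_num
  lead := fun i => by
    show 0 < (X ^ 3 + C k : ℤ[X]).leadingCoeff
    rw [(monic_X_pow_add_C k (by norm_num : (3 : ℕ) ≠ 0)).leadingCoeff]
    exact one_pos
  inj := fun i j _ => Subsingleton.elim i j
  adm := adm k

theorem V_eq (k : ℤ) (κ : ℝ) (N : ℕ) : V k κ N = UniG.V (F k) κ N := by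
  unfold V
  refine UniG.V_eq (F k) κ N _ (fun p _ => ?_)
  unfold omega
  congr 1
  ext x
  rw [UniG.mem_ZZ, mem_filter, mem_range, Fin.exists_fin_one, ev]

/-- For every `l ≥ 1`, with constants which do not depend on the integer `k` nor on the window:
(1) for `κ > 0` a set `S` of integers of `(A, A + N]` at which `m ^ 3 + k` has no prime factor `≤ N ^ κ` contains at most
`C N D V ^ l` progressions of length `l` with differences at most `D`;
(2) it contains at least `c₀ N D V ^ l` of them if it has at least `δ N V` elements, and it has at least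
`c₀ N V` elements if it contains at least `δ N D V ^ l` of them, for all `D` between `log ^ B N` and `N`;
(3), (4) the same for the set `P` (with `κ = 1/4` in `V`).
(5) If `k` is not a cube then `V` is of the exact order `1 / log N`. -/
theorem result (l : ℕ) (hl : 1 ≤ l) :
    (∀ κ : ℝ, 0 < κ → ∃ C : ℝ, 0 < C ∧ ∃ B N₀ : ℕ, ∀ (k : ℤ) (N A D : ℕ),
      N₀ ≤ N → Real.log N ^ B ≤ D → ∀ S : Finset ℕ, S ⊆ Ioc A (A + N) → (∀ m ∈ S, Rough k κ N m) →
        (AP l D S : ℝ) ≤ C * (N * D * V k κ N ^ l)) ∧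
    (∀ κ δ : ℝ, 0 < κ → 0 < δ → ∃ c₀ : ℝ, 0 < c₀ ∧ ∃ B N₀ : ℕ, ∀ (k : ℤ) (N A D : ℕ),
      N₀ ≤ N → Real.log N ^ B ≤ D → D ≤ N → ∀ S : Finset ℕ, S ⊆ Ioc A (A + N) →
        (∀ m ∈ S, Rough k κ N m) →
        (δ * (N * V k κ N) ≤ S.card → c₀ * (N * D * V k κ N ^ l) ≤ AP l D S) ∧
        (δ * (N * D * V k κ N ^ l) ≤ AP l D S → c₀ * (N * V k κ N) ≤ S.card)) ∧
    (∃ C : ℝ, 0 < C ∧ ∃ B N₀ : ℕ, ∀ (k : ℤ) (N A D : ℕ), N₀ ≤ N →
      Real.log N ^ B ≤ D → (AP l D (P k A N) : ℝ) ≤ C * (N * D * V k (1 / 4) N ^ l)) ∧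
    (∀ δ : ℝ, 0 < δ → ∃ c₀ : ℝ, 0 < c₀ ∧ ∃ B N₀ : ℕ, ∀ (k : ℤ) (N A D : ℕ), N₀ ≤ N →
      Real.log N ^ B ≤ D → D ≤ N →
      (δ * (N * V k (1 / 4) N) ≤ (P k A N).card →
        c₀ * (N * D * V k (1 / 4) N ^ l) ≤ AP l D (P k A N)) ∧
      (δ * (N * D * V k (1 / 4) N ^ l) ≤ AP l D (P k A N) →
        c₀ * (N * V k (1 / 4) N) ≤ (P k A N).card)) ∧
    (∀ k : ℤ, (¬ ∃ a : ℤ, k = a ^ 3) → ∀ κ : ℝ, 0 < κ → ∃ v C : ℝ, 0 < v ∧ 0 < C ∧ ∃ N₀ : ℕ, ∀ N : ℕ, N₀ ≤ N →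
      v / Real.log N ≤ V k κ N ∧ V k κ N ≤ C / Real.log N) := by
  obtain ⟨a1, a2, a3, a4⟩ := UniG.transfer 1 3 (fun k : ℤ => F k) (fun _ => True)
    (fun k _ => us k) (fun k => Rough k) (fun k => P k) (fun k => V k)
    (fun k _ κ N n h i p hp hd => h p hp (by rwa [ev] at hd))
    (fun k _ A N n => by
      unfold P
      rw [mem_filter, mem_Ioc, Fin.forall_fin_one, ev])
    (fun k _ κ N => V_eq k κ N) l hl
  refine ⟨?_, ?_, ?_, ?_, ?_⟩
  · intro κ hκ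
    obtain ⟨C, hC, B, N₀, h⟩ := a1 κ hκ
    exact ⟨C, hC, B, N₀, fun k => h k trivial⟩
  · intro κ δ hκ hδ
    obtain ⟨C, hC, B, N₀, h⟩ := a2 κ δ hκ hδ
    exact ⟨C, hC, B, N₀, fun k => h k trivial⟩
  · obtain ⟨C, hC, B, N₀, h⟩ := a3
    exact ⟨C, hC, B, N₀, fun k => h k trivial⟩
  · intro δ hδ
    obtain ⟨C, hC, B, N₀, h⟩ := a4 δ hδ
    exact ⟨C, hC, B, N₀, fun k => h k trivial⟩
  · intro k hk κ hκ
    obtain ⟨v, C, hv, hC, N₀, h⟩ := UniG.fixed (F k) (sys hk) κ hκ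
    refine ⟨v, C, hv, hC, N₀, fun N hN => ?_⟩
    rw [V_eq, ← pow_one (Real.log N)]
    exact h N hN

end Pool.Agent.Results.MP_4d57ea_nt.ProgressionsOfArguments
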