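import Pool.Agent.V11249.NP.Reg

/-!
# Integers `m` with `m ^ 3 + k` almost prime: regular windows in all short intervals

Let `k` be an integer which is not a cube. There are `r` and `c₁, c₂, K, κ > 0` such that in every interval `(X, X + Y]` with `X ^ θ ≤ Y ≤ X` at least `κ Y` of the
integers `n` are regular: every window `(a, b]` around `n` of length between `K log X` and `Y` contains between
`c₁ (b - a) / log X` and `c₂ (b - a) / log X` integers `m` for which `|m ^ 3 + k|`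
has at most `r` prime factors, all larger than `X ^ (1 / r)`; moreover, at all but boundedly many dyadic scales these
`m` have a constant density around `n`, up to an error `δ`.
-/

set_option autoImplicit false

open Finset Filter Polynomial

namespace Pool.Agent.Results.MP_4d57ea_nt.RegularWindows

/-- `|m ^ 3 + k|` has at most `r` prime factors (with multiplicity), all of them larger than `z` -/
def AlmostPrime (k : ℤ) (r : ℕ) (z : ℝ) (m : ℕ) : Prop :=
  ((m : ℤ) ^ 3 + k).natAbs.primeFactorsList.length ≤ r ∧ ∀ p : ℕ, p.Prime → (p : ℤ) ∣ (m : ℤ) ^ 3 + k → z < p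

open Classical in
/-- the number of the `m` in `(a, b]` with almost prime values, all prime factors being larger than
`X ^ (1 / r)` -/
noncomputable def cnt (k : ℤ) (r X a b : ℕ) : ℕ :=
  ((Ioc a b).filter (fun m => AlmostPrime k r ((X : ℝ) ^ (1 / (r : ℝ))) m)).card

/-- all windows `(a, b]` around `n`, of length between `K log X` and `Y`, contain the right order of such `m` -/
def Regular (k : ℤ) (r : ℕ) (c₁ c₂ K : ℝ) (X Y n : ℕ) : Prop :=
  ∀ a b : ℕ, a ≤ n → n ≤ b → K * Real.log X ≤ (b : ℝ) - a → (b : ℝ) - a ≤ Y →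
    c₁ * ((b : ℝ) - a) / Real.log X ≤ (cnt k r X a b : ℝ) ∧ (cnt k r X a b : ℝ) ≤ c₂ * ((b : ℝ) - a) / Real.log X

/-- the density is constant on `[n - 2 ^ j, n + 2 ^ j]`, up to `δ` -/
def Constant (k : ℤ) (r : ℕ) (c₁ c₂ δ : ℝ) (X n j : ℕ) : Prop :=
  ∃ lam : ℝ, c₁ ≤ lam ∧ lam ≤ c₂ ∧ ∀ u v : ℕ, n ≤ u + 2 ^ j → u ≤ v → v ≤ n + 2 ^ j →
    |(cnt k r X u v : ℝ) - lam * ((v : ℝ) - u) / Real.log X| ≤ δ * 2 ^ j / Real.log X

open Classical in
/-- the number of the scales `2 ^ j` between `log X` and `Y` at which the density is not constant -/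
noncomputable def badScales (k : ℤ) (r : ℕ) (c₁ c₂ δ : ℝ) (X Y n : ℕ) : ℕ :=
  ((range (Nat.log 2 Y + 1)).filter (fun j => Real.log X ≤ (2 : ℝ) ^ j ∧ ¬ Constant k r c₁ c₂ δ X n j)).card

/-- the system -/
noncomputable def F (k : ℤ) : Fin 1 → ℤ[X] := fun _ => X ^ 3 + C k

theorem ev (k : ℤ) (i : Fin 1) (n : ℤ) : (F k i).eval n = n ^ 3 + k := by
  simp [F]

theorem deg (k : ℤ) (i : Fin 1) : (F k i).natDegree = 3 := by
  show (X ^ 3 + C k : ℤ[X]).natDegree = 3
  exact natDegree_X_pow_add_C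

theorem adm (k : ℤ) : ∀ p : ℕ, p.Prime → ∃ m : ℕ, ∀ i, ¬ (p : ℤ) ∣ (F k i).eval (m : ℤ) := by
  intro p hp
  by_cases h : (p : ℤ) ∣ k
  · refine ⟨1, fun i hi => ?_⟩
    rw [ev] at hi
    have h1 := dvd_sub hi h
    have e : ((1 : ℕ) : ℤ) ^ 3 + k - k = ((1 : ℕ) : ℤ) := by
      push_cast
      ring
    rw [e, Int.natCast_dvd_natCast] at h1
    exact hp.one_lt.ne' (Nat.dvd_one.1 h1)
  · refine ⟨0, fun i hi => h ?_⟩
    rw [ev] at hi
    simpa using hi

theorem irr (k : ℤ) (h : ¬ ∃ a : ℤ, k = a ^ 3) : Irreducible (X ^ 3 + C k : ℤ[X]) := by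
  have hm : (X ^ 3 + C k : ℤ[X]).Monic := monic_X_pow_add_C k (by norm_num)
  rw [hm.irreducible_iff_irreducible_map_fraction_map (K := ℚ)]
  have e : (X ^ 3 + C k : ℤ[X]).map (algebraMap ℤ ℚ) = X ^ 3 - C (-(k : ℚ)) := by
    simp
  rw [e]
  refine X_pow_sub_C_irreducible_of_prime Nat.prime_three (fun b hb => ?_)
  have hint : IsIntegral ℤ b := by
    refine ⟨X ^ 3 + C k, hm, ?_⟩
    simp only [eval₂_add, eval₂_X_pow, eval₂_C, hb]
    simp
  obtain ⟨c, hc⟩ := IsIntegrallyClosed.isIntegral_iff.1 hint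
  apply h
  refine ⟨-c, ?_⟩
  rw [← hc] at hb
  have h2 : ((c ^ 3 : ℤ) : ℚ) = ((-k : ℤ) : ℚ) := by
    push_cast
    simpa using hb
  have h3 : c ^ 3 = -k := by exact_mod_cast h2
  have h4 : (-c) ^ 3 = -(c ^ 3) := by ring
  rw [h4, h3]
  ring

theorem sys {k : ℤ} (h : ¬ ∃ a : ℤ, k = a ^ 3) : Pool.Agent.W123.RU.Poly.Sys (F k) where
  irr := fun _ => irr k h
  deg := fun i => by rw [deg]; norm_num
  lead := fun i => by
    show 0 < (X ^ 3 + C k : ℤ[X]).leadingCoeff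
    rw [(monic_X_pow_add_C k (by norm_num : (3 : ℕ) ≠ 0)).leadingCoeff]
    exact one_pos
  inj := fun i j _ => Subsingleton.elim i j
  adm := adm k

theorem iff_almost (k : ℤ) (r : ℕ) (z : ℝ) (m : ℕ) :
    AlmostPrime k r z m ↔ Pool.Agent.TH464.PW.Almost (F k) r z m := by
  unfold AlmostPrime Pool.Agent.TH464.PW.Almost
  rw [Fin.forall_fin_one, ev]

open Classical in
/-- **Regular windows.** For `0 < θ ≤ 1` there are `r` and `c₁, c₂, K, κ > 0` such that for every `δ > 0` there is `B`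
such that for all large `X` and all `X ^ θ ≤ Y ≤ X`: at least `κ Y` of the `n` in `(X, X + Y]` are regular and have at
most `B` scales at which the density is not constant up to `δ`. -/
theorem result (k : ℤ) (hk : ¬ ∃ a : ℤ, k = a ^ 3) (θ : ℝ) (hθ : 0 < θ) (hθ1 : θ ≤ 1) :
    ∃ (r : ℕ) (c₁ c₂ K κ : ℝ), 0 < c₁ ∧ 0 < c₂ ∧ 0 < K ∧ 0 < κ ∧ ∀ δ : ℝ, 0 < δ → ∃ B : ℕ,
      ∀ᶠ X : ℕ in atTop, ∀ Y : ℕ, (X : ℝ) ^ θ ≤ Y → Y ≤ X →
        κ * Y ≤ (((Ioc X (X + Y)).filter (fun n =>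
          Regular k r c₁ c₂ K X Y n ∧ badScales k r c₁ c₂ δ X Y n ≤ B)).card : ℝ) := by
  have h := Pool.Agent.V11249.NP.reg_win (g := 1) (by norm_num) (F k) (sys hk) (AlmostPrime k)
    (iff_almost k) θ hθ hθ1
  simp only [pow_one] at h
  exact h

end Pool.Agent.Results.MP_4d57ea_nt.RegularWindows
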