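import Pool.Agent.H225.DG

/-!
# Values `m³ + k` at integers with restricted digits, in short intervals

Let `k` be an integer which is not a cube.  Let `b ≥ 2` be a base and let the digits of a number
`n < b^K` be restricted: the `i`-th digit belongs to a set `A i`, where the sets `A i` are arbitrary,
depend on the place `i < K`, and have the only property that the number `∏ |A i|` of these integers `n`
is at least `e^{-δK} b^K`, where the constant `δ > 0` does not depend on `b`.  (For example one digit may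
be excluded at every place if `b` is large; or a positive proportion of the digits may be fixed.)  Let
`N` be an arbitrary base point up to a fixed power of `b^K`, and `m = N + n`.  The number of these `m`
for which `|m³ + k|` is prime should have the order of magnitude `∏ |A i| / K` (if the last digit can be
chosen such that `m³ + k` is prime to `b`).

We show that this is an upper bound, and a lower bound for the number of the `m` for which `m³ + k` has
at most `r` prime factors, all of them larger than `b^{K/r}`.  (For negative `m` take `-k` in the place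
of `k`.)

The method is a Brun–Hooley sieve with weights, whose level of distribution is obtained from the Fourier
transform of the set of the integers with restricted digits at rationals (large sieve in blocks of
digits), see `Pool/Agent/Y816/PD`; the sieve product is evaluated by Mertens' theorem for the roots of
irreducible polynomials modulo primes (`Pool.Agent.H225.DG`).
-/

set_option autoImplicit false

namespace Pool.Agent.Results.MP_4d57ea_nt.RestrictedDigits

open Finset Filter Polynomial

open Classical in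
/-- The number of the `n < b ^ K` in `T` whose `i`-th digit in base `b` belongs to `A i` for all
`i < K`. -/
noncomputable def count (b K : ℕ) (A : ℕ → Finset ℕ) (T : Set ℕ) : ℕ :=
  ((range (b ^ K)).filter (fun n => (∀ i < K, n / b ^ i % b ∈ A i) ∧ n ∈ T)).card

/-- The number of choices of the digits. -/
noncomputable def choices (K : ℕ) (A : ℕ → Finset ℕ) : ℝ := ∏ i ∈ range K, ((A i).card : ℝ)

/-- `m` has at most `r` prime factors, counted with multiplicity, and all of them are larger than
`z ^ (1 / r)`. -/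
def AlmostPrime (r z m : ℕ) : Prop :=
  (∀ p : ℕ, p.Prime → p ∣ m → z < p ^ r) ∧ m.primeFactorsList.length ≤ r

/-- The absolute value of `m³ + k`. -/
def v (k : ℤ) (m : ℕ) : ℕ := ((m : ℤ) ^ 3 + k).natAbs

open Pool.Agent.Y816.PD (NA ND ND_sub)
open Pool.Agent.W123.RU.Poly (Sys)

/-- the polynomial -/
noncomputable def f (k : ℤ) : Fin 1 → ℤ[X] := fun _ => X ^ 3 + C k

lemma eval_f (k : ℤ) (i : Fin 1) (m : ℕ) : ((f k i).eval (m : ℤ)).natAbs = v k m := by
  unfold f v
  simp

lemma irr {k : ℤ} (hk : ∀ a : ℤ, k ≠ a ^ 3) : Irreducible (X ^ 3 + C k : ℤ[X]) := by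
  have hdeg : (X ^ 3 + C k : ℤ[X]).natDegree = 3 := natDegree_X_pow_add_C
  have hmon : (X ^ 3 + C k : ℤ[X]).Monic := monic_X_pow_add_C _ (by norm_num)
  rw [hmon.irreducible_iff_roots_eq_zero_of_degree_le_three (by omega) (by omega)]
  rw [Multiset.eq_zero_iff_forall_notMem]
  intro x hx
  have h := (mem_roots'.1 hx).2
  rw [IsRoot, eval_add, eval_pow, eval_X, eval_C] at h
  exact hk (-x) (by linear_combination h)

lemma sys {k : ℤ} (hk : ∀ a : ℤ, k ≠ a ^ 3) : Sys (f k) where
  irr := fun _ => irr hk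
  deg := fun _ => by
    change 0 < (X ^ 3 + C k : ℤ[X]).natDegree
    rw [natDegree_X_pow_add_C]
    norm_num
  lead := fun _ => by
    change 0 < (X ^ 3 + C k : ℤ[X]).leadingCoeff
    rw [(monic_X_pow_add_C _ (by norm_num)).leadingCoeff]
    norm_num
  inj := fun i j _ => Subsingleton.elim i j
  adm := by
    intro p hp
    by_cases h0 : (p : ℤ) ∣ k
    · refine ⟨1, fun i hi => ?_⟩
      have e : (f k i).eval ((1 : ℕ) : ℤ) = 1 + k := by simp [f]
      rw [e] at hi
      have h1 : (p : ℤ) ∣ 1 := by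
        have := dvd_sub hi h0
        rwa [add_sub_cancel_right] at this
      have h2 : p ∣ 1 := by exact_mod_cast h1
      exact hp.one_lt.ne' (Nat.dvd_one.1 h2)
    · refine ⟨0, fun i hi => h0 ?_⟩
      have e : (f k i).eval ((0 : ℕ) : ℤ) = k := by simp [f]
      rwa [e] at hi

lemma le_v (k : ℤ) {m : ℕ} (hm : k.natAbs + 2 ≤ m) : m ≤ v k m := by
  unfold v
  have h1 : (k.natAbs : ℤ) + 2 ≤ m := by exact_mod_cast hm
  have h2 : -(k.natAbs : ℤ) ≤ k := by omega
  have h3 : (0 : ℤ) ≤ k.natAbs := by positivity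
  have h6 : (0 : ℤ) ≤ (m : ℤ) * (m - 2) * (m + 2) :=
    mul_nonneg (mul_nonneg (by positivity) (by linarith)) (by positivity)
  have e : (m : ℤ) * (m - 2) * (m + 2) = (m : ℤ) ^ 3 - 4 * m := by ring
  rw [e] at h6
  have h4 : (m : ℤ) + k.natAbs ≤ (m : ℤ) ^ 3 := by linarith
  have h5 : (m : ℤ) ≤ (m : ℤ) ^ 3 + k := by linarith
  omega

/-- **Values `m³ + k` at integers with restricted digits.** -/
theorem result (k : ℤ) (hk : ∀ a : ℤ, k ≠ a ^ 3) (D : ℕ) :
    ∃ δ : ℝ, 0 < δ ∧ ∃ r₀ : ℕ, 2 ≤ r₀ ∧ ∀ r : ℕ, r₀ ≤ r → ∀ b : ℕ, 2 ≤ b →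
      ∃ κ C : ℝ, 0 < κ ∧ 0 < C ∧
      ∀ᶠ K : ℕ in atTop, ∀ N : ℕ, N ≤ b ^ (D * K) →
        ∀ A : ℕ → Finset ℕ, (∀ i < K, A i ⊆ range b) →
        (b : ℝ) ^ K ≤ Real.exp (δ * K) * choices K A →
        ((∃ d ∈ A 0, (v k (N + d)).Coprime b) → (∃ d ∈ A (K - 1), d ≠ 0) →
          κ * choices K A / (K : ℝ) ≤ count b K A {n | b ^ (K - 1) ≤ n ∧
            AlmostPrime r (b ^ K) (v k (N + n))}) ∧
        (count b K A {n | (v k (N + n)).Prime} : ℝ) ≤ C * choices K A / (K : ℝ) := by
  obtain ⟨δ, hδ, r₀, hr₀, h⟩ := Pool.Agent.H225.DG.fixed le_rfl (f k) (sys hk) D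
  refine ⟨δ, hδ, r₀ + k.natAbs + 2, by omega, fun r hr b hb => ?_⟩
  obtain ⟨κ, C, hκ, hC, h1⟩ := h r (by omega) b hb
  refine ⟨κ, C, hκ, hC, ?_⟩
  filter_upwards [h1] with K hK N hN A hA hprod
  obtain ⟨h2, h3⟩ := hK N hN A hA hprod
  rw [pow_one] at h2 h3
  constructor
  · rintro ⟨d, hd, hcop⟩ htop
    refine (h2 ⟨d, hd, fun i => ?_⟩ htop).trans (Nat.cast_le.2 ?_)
    · rw [eval_f]
      exact hcop
    · refine ND_sub fun n _ hn1 hn2 => ⟨hn1, hn2.1, ?_⟩
      have := hn2.2 0
      rw [eval_f] at this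
      exact this
  · refine le_trans (Nat.cast_le.2 ?_) h3
    refine ND_sub fun n _ hn1 hn2 => ⟨hn1, fun i => ?_⟩
    have hp : (v k (N + n)).Prime := hn2
    rw [eval_f]
    refine ⟨hp, ?_⟩
    by_cases hn : N + n < k.natAbs + 2
    · have h5 : 2 ^ r ≤ v k (N + n) ^ r := Nat.pow_le_pow_left hp.two_le r
      have h6 : r < 2 ^ r := Nat.lt_two_pow_self
      omega
    · have h4 := le_v k (not_lt.1 hn)
      have h5 : v k (N + n) < v k (N + n) ^ 2 := by nlinarith [hp.two_le]
      have h6 : v k (N + n) ^ 2 ≤ v k (N + n) ^ r := Nat.pow_le_pow_right hp.pos (by omega)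
      omega

end Pool.Agent.Results.MP_4d57ea_nt.RestrictedDigits
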